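import Mathlib

set_option autoImplicit false
set_option linter.style.longLine false

/-!
# Lists of pairs for `B(5,3,m)`

The common vertices of `B(5,3,m)` get the labels `0`, `1`, `q` with `q = 7m+3`, and the two further
vertices of the `j`-th copy get the labels `u`, `v` of the `j`-th pair.
-/

namespace Pool.Agent.K53

/-- `n` is a label of the list of pairs. -/
def Lc (L : List (ℕ × ℕ)) (n : ℕ) : Prop := ∃ p ∈ L, n = p.1 ∨ n = p.2

/-- `n` is a difference of the list of pairs. -/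
def Dc (L : List (ℕ × ℕ)) (n : ℕ) : Prop := ∃ p ∈ L, p.1 + n = p.2

/-- `n` is an edge value. -/
def Cov (q : ℕ) (L : List (ℕ × ℕ)) (n : ℕ) : Prop :=
  n = 1 ∨ n = q ∨ n + 1 = q ∨ Lc L n ∨ Lc L (n + 1) ∨ (∃ k, n + k = q ∧ Lc L k) ∨ Dc L n

theorem c0' {q : ℕ} {L : List (ℕ × ℕ)} {n : ℕ} (h : Lc L n) : Cov q L n :=
  Or.inr (Or.inr (Or.inr (Or.inl h)))

theorem c1' {q : ℕ} {L : List (ℕ × ℕ)} {n : ℕ} (h : Lc L (n + 1)) : Cov q L n :=
  Or.inr (Or.inr (Or.inr (Or.inr (Or.inl h))))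

theorem cq {q : ℕ} {L : List (ℕ × ℕ)} {n : ℕ} (hn : n ≤ q) (h : Lc L (q - n)) : Cov q L n :=
  Or.inr (Or.inr (Or.inr (Or.inr (Or.inr (Or.inl ⟨q - n, by omega, h⟩)))))

theorem cD {q : ℕ} {L : List (ℕ × ℕ)} {n : ℕ} (h : Dc L n) : Cov q L n :=
  Or.inr (Or.inr (Or.inr (Or.inr (Or.inr (Or.inr h)))))

end Pool.Agent.K53
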