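import Pool.Agent.K53.Basic

set_option autoImplicit false
set_option linter.unusedVariables false
set_option linter.style.longLine false

/-! Pairs for `m = 12 h + 12` (generated). -/

namespace Pool.Agent.K53.C12

def f0 (h i : ℕ) : ℕ × ℕ := (24 * h + 3 * i + 32, 30 * h + 28 - 3 * i)

def f1 (h i : ℕ) : ℕ × ℕ := (45 * h + 3 * i + 49, 51 * h + 43 - 3 * i)

def f2 (h i : ℕ) : ℕ × ℕ := (33 * h + 3 * i + 37, 45 * h + 37 - 3 * i)

def f3 (h i : ℕ) : ℕ × ℕ := (39 * h + 3 * i + 46, 57 * h + 52 - 3 * i)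

def f4 (h i : ℕ) : ℕ × ℕ := (30 * h + 3 * i + 37, 54 * h + 49 - 3 * i)

def f5 (h i : ℕ) : ℕ × ℕ := (36 * h + 3 * i + 43, 60 * h + 57 - 3 * i)

def f6 (h i : ℕ) : ℕ × ℕ := (66 * h + 64 - 2 * i, 72 * h + 4 * i + 78)

def f7 (h i : ℕ) : ℕ × ℕ := (72 * h + 70 - 2 * i, 72 * h + 4 * i + 80)

def f8 (h i : ℕ) : ℕ × ℕ := (64 * h + 64 - 2 * i, 76 * h + 4 * i + 84)

def f9 (h i : ℕ) : ℕ × ℕ := (70 * h + 66 - 2 * i, 76 * h + 4 * i + 82)

def f10 (h i : ℕ) : ℕ × ℕ := (62 * h + 66 - 2 * i, 80 * h + 4 * i + 82)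

def f11 (h i : ℕ) : ℕ × ℕ := (68 * h + 66 - 2 * i, 80 * h + 4 * i + 88)

def sp (h : ℕ) : List (ℕ × ℕ) :=
  [(4, 57 * h + 60),
   (24 * h + 23, 48 * h + 43),
   (24 * h + 26, 36 * h + 34),
   (24 * h + 29, 30 * h + 31),
   (30 * h + 34, 54 * h + 52),
   (33 * h + 34, 51 * h + 46),
   (36 * h + 31, 42 * h + 43),
   (36 * h + 37, 54 * h + 55),
   (36 * h + 40, 42 * h + 40),
   (39 * h + 40, 66 * h + 68),
   (39 * h + 43, 51 * h + 49),
   (45 * h + 40, 57 * h + 58),
   (45 * h + 43, 72 * h + 74),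
   (45 * h + 46, 51 * h + 52),
   (48 * h + 46, 66 * h + 66),
   (48 * h + 49, 60 * h + 63),
   (54 * h + 58, 72 * h + 72),
   (57 * h + 55, 84 * h + 85),
   (60 * h + 60, 72 * h + 76),
   (64 * h + 66, 76 * h + 76),
   (68 * h + 68, 80 * h + 80),
   (70 * h + 68, 76 * h + 78),
   (70 * h + 70, 76 * h + 74),
   (70 * h + 72, 76 * h + 80),
   (80 * h + 78, 80 * h + 84)]

def L (h : ℕ) : List (ℕ × ℕ) :=
  (List.range (h - 1)).map (f0 h) ++ ((List.range (h - 2)).map (f1 h) ++ ((List.range (h - 2)).map (f2 h) ++ ((List.range (h - 2)).map (f3 h) ++ ((List.range (h - 1)).map (f4 h) ++ ((List.range (h - 1)).map (f5 h) ++ ((List.range (h - 1)).map (f6 h) ++ ((List.range (h - 1)).map (f7 h) ++ ((List.range (h - 1)).map (f8 h) ++ ((List.range (h - 1)).map (f9 h) ++ ((List.range (h + 1)).map (f10 h) ++ ((List.range (h - 1)).map (f11 h) ++ (sp h))))))))))))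

theorem len (h : ℕ) (hh : 2 ≤ h) : (L h).length = 12 * h + 12 := by
  simp only [L, sp, List.length_append, List.length_map, List.length_range, List.length_cons, List.length_nil]
  omega

theorem mf0 (h i : ℕ) (hi : i < h - 1) : f0 h i ∈ L h :=
  List.mem_append_left _ (List.mem_map.mpr ⟨i, List.mem_range.mpr hi, rfl⟩)

theorem a0 (h n i : ℕ) (hh : 2 ≤ h) (hi : i < h - 1) (hn : n = 24 * h + 3 * i + 32) : Lc (L h) n :=
  ⟨_, mf0 h i hi, Or.inl hn⟩

theorem b0 (h n i : ℕ) (hh : 2 ≤ h) (hi : i < h - 1) (hn : n = 30 * h + 28 - 3 * i) : Lc (L h) n :=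
  ⟨_, mf0 h i hi, Or.inr hn⟩

theorem d0 (h n i : ℕ) (hh : 2 ≤ h) (hi : i < h - 1) (hn : n = 6 * h - (6 * i + 4)) : Dc (L h) n :=
  ⟨_, mf0 h i hi, by simp only [f0]; omega⟩

theorem mf1 (h i : ℕ) (hi : i < h - 2) : f1 h i ∈ L h :=
  List.mem_append_right _ (List.mem_append_left _ (List.mem_map.mpr ⟨i, List.mem_range.mpr hi, rfl⟩))

theorem a1 (h n i : ℕ) (hh : 2 ≤ h) (hi : i < h - 2) (hn : n = 45 * h + 3 * i + 49) : Lc (L h) n :=
  ⟨_, mf1 h i hi, Or.inl hn⟩

theorem b1 (h n i : ℕ) (hh : 2 ≤ h) (hi : i < h - 2) (hn : n = 51 * h + 43 - 3 * i) : Lc (L h) n :=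
  ⟨_, mf1 h i hi, Or.inr hn⟩

theorem d1 (h n i : ℕ) (hh : 2 ≤ h) (hi : i < h - 2) (hn : n = 6 * h - (6 * i + 6)) : Dc (L h) n :=
  ⟨_, mf1 h i hi, by simp only [f1]; omega⟩

theorem mf2 (h i : ℕ) (hi : i < h - 2) : f2 h i ∈ L h :=
  List.mem_append_right _ (List.mem_append_right _ (List.mem_append_left _ (List.mem_map.mpr ⟨i, List.mem_range.mpr hi, rfl⟩)))

theorem a2 (h n i : ℕ) (hh : 2 ≤ h) (hi : i < h - 2) (hn : n = 33 * h + 3 * i + 37) : Lc (L h) n :=
  ⟨_, mf2 h i hi, Or.inl hn⟩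

theorem b2 (h n i : ℕ) (hh : 2 ≤ h) (hi : i < h - 2) (hn : n = 45 * h + 37 - 3 * i) : Lc (L h) n :=
  ⟨_, mf2 h i hi, Or.inr hn⟩

theorem d2 (h n i : ℕ) (hh : 2 ≤ h) (hi : i < h - 2) (hn : n = 12 * h - 6 * i) : Dc (L h) n :=
  ⟨_, mf2 h i hi, by simp only [f2]; omega⟩

theorem mf3 (h i : ℕ) (hi : i < h - 2) : f3 h i ∈ L h :=
  List.mem_append_right _ (List.mem_append_right _ (List.mem_append_right _ (List.mem_append_left _ (List.mem_map.mpr ⟨i, List.mem_range.mpr hi, rfl⟩))))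

theorem a3 (h n i : ℕ) (hh : 2 ≤ h) (hi : i < h - 2) (hn : n = 39 * h + 3 * i + 46) : Lc (L h) n :=
  ⟨_, mf3 h i hi, Or.inl hn⟩

theorem b3 (h n i : ℕ) (hh : 2 ≤ h) (hi : i < h - 2) (hn : n = 57 * h + 52 - 3 * i) : Lc (L h) n :=
  ⟨_, mf3 h i hi, Or.inr hn⟩

theorem d3 (h n i : ℕ) (hh : 2 ≤ h) (hi : i < h - 2) (hn : n = 18 * h + 6 - 6 * i) : Dc (L h) n :=
  ⟨_, mf3 h i hi, by simp only [f3]; omega⟩

theorem mf4 (h i : ℕ) (hi : i < h - 1) : f4 h i ∈ L h :=
  List.mem_append_right _ (List.mem_append_right _ (List.mem_append_right _ (List.mem_append_right _ (List.mem_append_left _ (List.mem_map.mpr ⟨i, List.mem_range.mpr hi, rfl⟩)))))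

theorem a4 (h n i : ℕ) (hh : 2 ≤ h) (hi : i < h - 1) (hn : n = 30 * h + 3 * i + 37) : Lc (L h) n :=
  ⟨_, mf4 h i hi, Or.inl hn⟩

theorem b4 (h n i : ℕ) (hh : 2 ≤ h) (hi : i < h - 1) (hn : n = 54 * h + 49 - 3 * i) : Lc (L h) n :=
  ⟨_, mf4 h i hi, Or.inr hn⟩

theorem d4 (h n i : ℕ) (hh : 2 ≤ h) (hi : i < h - 1) (hn : n = 24 * h + 12 - 6 * i) : Dc (L h) n :=
  ⟨_, mf4 h i hi, by simp only [f4]; omega⟩

theorem mf5 (h i : ℕ) (hi : i < h - 1) : f5 h i ∈ L h :=
  List.mem_append_right _ (List.mem_append_right _ (List.mem_append_right _ (List.mem_append_right _ (List.mem_append_right _ (List.mem_append_left _ (List.mem_map.mpr ⟨i, List.mem_range.mpr hi, rfl⟩))))))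

theorem a5 (h n i : ℕ) (hh : 2 ≤ h) (hi : i < h - 1) (hn : n = 36 * h + 3 * i + 43) : Lc (L h) n :=
  ⟨_, mf5 h i hi, Or.inl hn⟩

theorem b5 (h n i : ℕ) (hh : 2 ≤ h) (hi : i < h - 1) (hn : n = 60 * h + 57 - 3 * i) : Lc (L h) n :=
  ⟨_, mf5 h i hi, Or.inr hn⟩

theorem d5 (h n i : ℕ) (hh : 2 ≤ h) (hi : i < h - 1) (hn : n = 24 * h + 14 - 6 * i) : Dc (L h) n :=
  ⟨_, mf5 h i hi, by simp only [f5]; omega⟩

theorem mf6 (h i : ℕ) (hi : i < h - 1) : f6 h i ∈ L h :=
  List.mem_append_right _ (List.mem_append_right _ (List.mem_append_right _ (List.mem_append_right _ (List.mem_append_right _ (List.mem_append_right _ (List.mem_append_left _ (List.mem_map.mpr ⟨i, List.mem_range.mpr hi, rfl⟩)))))))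

theorem a6 (h n i : ℕ) (hh : 2 ≤ h) (hi : i < h - 1) (hn : n = 66 * h + 64 - 2 * i) : Lc (L h) n :=
  ⟨_, mf6 h i hi, Or.inl hn⟩

theorem b6 (h n i : ℕ) (hh : 2 ≤ h) (hi : i < h - 1) (hn : n = 72 * h + 4 * i + 78) : Lc (L h) n :=
  ⟨_, mf6 h i hi, Or.inr hn⟩

theorem d6 (h n i : ℕ) (hh : 2 ≤ h) (hi : i < h - 1) (hn : n = 6 * h + 6 * i + 14) : Dc (L h) n :=
  ⟨_, mf6 h i hi, by simp only [f6]; omega⟩

theorem mf7 (h i : ℕ) (hi : i < h - 1) : f7 h i ∈ L h :=
  List.mem_append_right _ (List.mem_append_right _ (List.mem_append_right _ (List.mem_append_right _ (List.mem_append_right _ (List.mem_append_right _ (List.mem_append_right _ (List.mem_append_left _ (List.mem_map.mpr ⟨i, List.mem_range.mpr hi, rfl⟩))))))))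

theorem a7 (h n i : ℕ) (hh : 2 ≤ h) (hi : i < h - 1) (hn : n = 72 * h + 70 - 2 * i) : Lc (L h) n :=
  ⟨_, mf7 h i hi, Or.inl hn⟩

theorem b7 (h n i : ℕ) (hh : 2 ≤ h) (hi : i < h - 1) (hn : n = 72 * h + 4 * i + 80) : Lc (L h) n :=
  ⟨_, mf7 h i hi, Or.inr hn⟩

theorem d7 (h n i : ℕ) (hh : 2 ≤ h) (hi : i < h - 1) (hn : n = 6 * i + 10) : Dc (L h) n :=
  ⟨_, mf7 h i hi, by simp only [f7]; omega⟩

theorem mf8 (h i : ℕ) (hi : i < h - 1) : f8 h i ∈ L h :=
  List.mem_append_right _ (List.mem_append_right _ (List.mem_append_right _ (List.mem_append_right _ (List.mem_append_right _ (List.mem_append_right _ (List.mem_append_right _ (List.mem_append_right _ (List.mem_append_left _ (List.mem_map.mpr ⟨i, List.mem_range.mpr hi, rfl⟩)))))))))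

theorem a8 (h n i : ℕ) (hh : 2 ≤ h) (hi : i < h - 1) (hn : n = 64 * h + 64 - 2 * i) : Lc (L h) n :=
  ⟨_, mf8 h i hi, Or.inl hn⟩

theorem b8 (h n i : ℕ) (hh : 2 ≤ h) (hi : i < h - 1) (hn : n = 76 * h + 4 * i + 84) : Lc (L h) n :=
  ⟨_, mf8 h i hi, Or.inr hn⟩

theorem d8 (h n i : ℕ) (hh : 2 ≤ h) (hi : i < h - 1) (hn : n = 12 * h + 6 * i + 20) : Dc (L h) n :=
  ⟨_, mf8 h i hi, by simp only [f8]; omega⟩

theorem mf9 (h i : ℕ) (hi : i < h - 1) : f9 h i ∈ L h :=
  List.mem_append_right _ (List.mem_append_right _ (List.mem_append_right _ (List.mem_append_right _ (List.mem_append_right _ (List.mem_append_right _ (List.mem_append_right _ (List.mem_append_right _ (List.mem_append_right _ (List.mem_append_left _ (List.mem_map.mpr ⟨i, List.mem_range.mpr hi, rfl⟩))))))))))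

theorem a9 (h n i : ℕ) (hh : 2 ≤ h) (hi : i < h - 1) (hn : n = 70 * h + 66 - 2 * i) : Lc (L h) n :=
  ⟨_, mf9 h i hi, Or.inl hn⟩

theorem b9 (h n i : ℕ) (hh : 2 ≤ h) (hi : i < h - 1) (hn : n = 76 * h + 4 * i + 82) : Lc (L h) n :=
  ⟨_, mf9 h i hi, Or.inr hn⟩

theorem d9 (h n i : ℕ) (hh : 2 ≤ h) (hi : i < h - 1) (hn : n = 6 * h + 6 * i + 16) : Dc (L h) n :=
  ⟨_, mf9 h i hi, by simp only [f9]; omega⟩

theorem mf10 (h i : ℕ) (hi : i < h + 1) : f10 h i ∈ L h :=
  List.mem_append_right _ (List.mem_append_right _ (List.mem_append_right _ (List.mem_append_right _ (List.mem_append_right _ (List.mem_append_right _ (List.mem_append_right _ (List.mem_append_right _ (List.mem_append_right _ (List.mem_append_right _ (List.mem_append_left _ (List.mem_map.mpr ⟨i, List.mem_range.mpr hi, rfl⟩)))))))))))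

theorem a10 (h n i : ℕ) (hh : 2 ≤ h) (hi : i < h + 1) (hn : n = 62 * h + 66 - 2 * i) : Lc (L h) n :=
  ⟨_, mf10 h i hi, Or.inl hn⟩

theorem b10 (h n i : ℕ) (hh : 2 ≤ h) (hi : i < h + 1) (hn : n = 80 * h + 4 * i + 82) : Lc (L h) n :=
  ⟨_, mf10 h i hi, Or.inr hn⟩

theorem d10 (h n i : ℕ) (hh : 2 ≤ h) (hi : i < h + 1) (hn : n = 18 * h + 6 * i + 16) : Dc (L h) n :=
  ⟨_, mf10 h i hi, by simp only [f10]; omega⟩

theorem mf11 (h i : ℕ) (hi : i < h - 1) : f11 h i ∈ L h :=
  List.mem_append_right _ (List.mem_append_right _ (List.mem_append_right _ (List.mem_append_right _ (List.mem_append_right _ (List.mem_append_right _ (List.mem_append_right _ (List.mem_append_right _ (List.mem_append_right _ (List.mem_append_right _ (List.mem_append_right _ (List.mem_append_left _ (List.mem_map.mpr ⟨i, List.mem_range.mpr hi, rfl⟩))))))))))))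

theorem a11 (h n i : ℕ) (hh : 2 ≤ h) (hi : i < h - 1) (hn : n = 68 * h + 66 - 2 * i) : Lc (L h) n :=
  ⟨_, mf11 h i hi, Or.inl hn⟩

theorem b11 (h n i : ℕ) (hh : 2 ≤ h) (hi : i < h - 1) (hn : n = 80 * h + 4 * i + 88) : Lc (L h) n :=
  ⟨_, mf11 h i hi, Or.inr hn⟩

theorem d11 (h n i : ℕ) (hh : 2 ≤ h) (hi : i < h - 1) (hn : n = 12 * h + 6 * i + 22) : Dc (L h) n :=
  ⟨_, mf11 h i hi, by simp only [f11]; omega⟩

theorem ms0 (h : ℕ) : (4, 57 * h + 60) ∈ L h :=
  List.mem_append_right _ (List.mem_append_right _ (List.mem_append_right _ (List.mem_append_right _ (List.mem_append_right _ (List.mem_append_right _ (List.mem_append_right _ (List.mem_append_right _ (List.mem_append_right _ (List.mem_append_right _ (List.mem_append_right _ (List.mem_append_right _ (List.mem_cons_self))))))))))))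

theorem sa0 (h n : ℕ) (hh : 2 ≤ h) (hn : n = 4) : Lc (L h) n :=
  ⟨_, ms0 h, Or.inl (by omega)⟩

theorem sb0 (h n : ℕ) (hh : 2 ≤ h) (hn : n = 57 * h + 60) : Lc (L h) n :=
  ⟨_, ms0 h, Or.inr (by omega)⟩

theorem sd0 (h n : ℕ) (hh : 2 ≤ h) (hn : n = 57 * h + 56) : Dc (L h) n :=
  ⟨_, ms0 h, by omega⟩

theorem ms1 (h : ℕ) : (24 * h + 23, 48 * h + 43) ∈ L h :=
  List.mem_append_right _ (List.mem_append_right _ (List.mem_append_right _ (List.mem_append_right _ (List.mem_append_right _ (List.mem_append_right _ (List.mem_append_right _ (List.mem_append_right _ (List.mem_append_right _ (List.mem_append_right _ (List.mem_append_right _ (List.mem_append_right _ (List.mem_cons_of_mem _ (List.mem_cons_self)))))))))))))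

theorem sa1 (h n : ℕ) (hh : 2 ≤ h) (hn : n = 24 * h + 23) : Lc (L h) n :=
  ⟨_, ms1 h, Or.inl (by omega)⟩

theorem sb1 (h n : ℕ) (hh : 2 ≤ h) (hn : n = 48 * h + 43) : Lc (L h) n :=
  ⟨_, ms1 h, Or.inr (by omega)⟩

theorem sd1 (h n : ℕ) (hh : 2 ≤ h) (hn : n = 24 * h + 20) : Dc (L h) n :=
  ⟨_, ms1 h, by omega⟩

theorem ms2 (h : ℕ) : (24 * h + 26, 36 * h + 34) ∈ L h :=
  List.mem_append_right _ (List.mem_append_right _ (List.mem_append_right _ (List.mem_append_right _ (List.mem_append_right _ (List.mem_append_right _ (List.mem_append_right _ (List.mem_append_right _ (List.mem_append_right _ (List.mem_append_right _ (List.mem_append_right _ (List.mem_append_right _ (List.mem_cons_of_mem _ (List.mem_cons_of_mem _ (List.mem_cons_self))))))))))))))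

theorem sa2 (h n : ℕ) (hh : 2 ≤ h) (hn : n = 24 * h + 26) : Lc (L h) n :=
  ⟨_, ms2 h, Or.inl (by omega)⟩

theorem sb2 (h n : ℕ) (hh : 2 ≤ h) (hn : n = 36 * h + 34) : Lc (L h) n :=
  ⟨_, ms2 h, Or.inr (by omega)⟩

theorem sd2 (h n : ℕ) (hh : 2 ≤ h) (hn : n = 12 * h + 8) : Dc (L h) n :=
  ⟨_, ms2 h, by omega⟩

theorem ms3 (h : ℕ) : (24 * h + 29, 30 * h + 31) ∈ L h :=
  List.mem_append_right _ (List.mem_append_right _ (List.mem_append_right _ (List.mem_append_right _ (List.mem_append_right _ (List.mem_append_right _ (List.mem_append_right _ (List.mem_append_right _ (List.mem_append_right _ (List.mem_append_right _ (List.mem_append_right _ (List.mem_append_right _ (List.mem_cons_of_mem _ (List.mem_cons_of_mem _ (List.mem_cons_of_mem _ (List.mem_cons_self)))))))))))))))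

theorem sa3 (h n : ℕ) (hh : 2 ≤ h) (hn : n = 24 * h + 29) : Lc (L h) n :=
  ⟨_, ms3 h, Or.inl (by omega)⟩

theorem sb3 (h n : ℕ) (hh : 2 ≤ h) (hn : n = 30 * h + 31) : Lc (L h) n :=
  ⟨_, ms3 h, Or.inr (by omega)⟩

theorem sd3 (h n : ℕ) (hh : 2 ≤ h) (hn : n = 6 * h + 2) : Dc (L h) n :=
  ⟨_, ms3 h, by omega⟩

theorem ms4 (h : ℕ) : (30 * h + 34, 54 * h + 52) ∈ L h :=
  List.mem_append_right _ (List.mem_append_right _ (List.mem_append_right _ (List.mem_append_right _ (List.mem_append_right _ (List.mem_append_right _ (List.mem_append_right _ (List.mem_append_right _ (List.mem_append_right _ (List.mem_append_right _ (List.mem_append_right _ (List.mem_append_right _ (List.mem_cons_of_mem _ (List.mem_cons_of_mem _ (List.mem_cons_of_mem _ (List.mem_cons_of_mem _ (List.mem_cons_self))))))))))))))))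

theorem sa4 (h n : ℕ) (hh : 2 ≤ h) (hn : n = 30 * h + 34) : Lc (L h) n :=
  ⟨_, ms4 h, Or.inl (by omega)⟩

theorem sb4 (h n : ℕ) (hh : 2 ≤ h) (hn : n = 54 * h + 52) : Lc (L h) n :=
  ⟨_, ms4 h, Or.inr (by omega)⟩

theorem sd4 (h n : ℕ) (hh : 2 ≤ h) (hn : n = 24 * h + 18) : Dc (L h) n :=
  ⟨_, ms4 h, by omega⟩

theorem ms5 (h : ℕ) : (33 * h + 34, 51 * h + 46) ∈ L h :=
  List.mem_append_right _ (List.mem_append_right _ (List.mem_append_right _ (List.mem_append_right _ (List.mem_append_right _ (List.mem_append_right _ (List.mem_append_right _ (List.mem_append_right _ (List.mem_append_right _ (List.mem_append_right _ (List.mem_append_right _ (List.mem_append_right _ (List.mem_cons_of_mem _ (List.mem_cons_of_mem _ (List.mem_cons_of_mem _ (List.mem_cons_of_mem _ (List.mem_cons_of_mem _ (List.mem_cons_self)))))))))))))))))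

theorem sa5 (h n : ℕ) (hh : 2 ≤ h) (hn : n = 33 * h + 34) : Lc (L h) n :=
  ⟨_, ms5 h, Or.inl (by omega)⟩

theorem sb5 (h n : ℕ) (hh : 2 ≤ h) (hn : n = 51 * h + 46) : Lc (L h) n :=
  ⟨_, ms5 h, Or.inr (by omega)⟩

theorem sd5 (h n : ℕ) (hh : 2 ≤ h) (hn : n = 18 * h + 12) : Dc (L h) n :=
  ⟨_, ms5 h, by omega⟩

theorem ms6 (h : ℕ) : (36 * h + 31, 42 * h + 43) ∈ L h :=
  List.mem_append_right _ (List.mem_append_right _ (List.mem_append_right _ (List.mem_append_right _ (List.mem_append_right _ (List.mem_append_right _ (List.mem_append_right _ (List.mem_append_right _ (List.mem_append_right _ (List.mem_append_right _ (List.mem_append_right _ (List.mem_append_right _ (List.mem_cons_of_mem _ (List.mem_cons_of_mem _ (List.mem_cons_of_mem _ (List.mem_cons_of_mem _ (List.mem_cons_of_mem _ (List.mem_cons_of_mem _ (List.mem_cons_self))))))))))))))))))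

theorem sa6 (h n : ℕ) (hh : 2 ≤ h) (hn : n = 36 * h + 31) : Lc (L h) n :=
  ⟨_, ms6 h, Or.inl (by omega)⟩

theorem sb6 (h n : ℕ) (hh : 2 ≤ h) (hn : n = 42 * h + 43) : Lc (L h) n :=
  ⟨_, ms6 h, Or.inr (by omega)⟩

theorem sd6 (h n : ℕ) (hh : 2 ≤ h) (hn : n = 6 * h + 12) : Dc (L h) n :=
  ⟨_, ms6 h, by omega⟩

theorem ms7 (h : ℕ) : (36 * h + 37, 54 * h + 55) ∈ L h :=
  List.mem_append_right _ (List.mem_append_right _ (List.mem_append_right _ (List.mem_append_right _ (List.mem_append_right _ (List.mem_append_right _ (List.mem_append_right _ (List.mem_append_right _ (List.mem_append_right _ (List.mem_append_right _ (List.mem_append_right _ (List.mem_append_right _ (List.mem_cons_of_mem _ (List.mem_cons_of_mem _ (List.mem_cons_of_mem _ (List.mem_cons_of_mem _ (List.mem_cons_of_mem _ (List.mem_cons_of_mem _ (List.mem_cons_of_mem _ (List.mem_cons_self)))))))))))))))))))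

theorem sa7 (h n : ℕ) (hh : 2 ≤ h) (hn : n = 36 * h + 37) : Lc (L h) n :=
  ⟨_, ms7 h, Or.inl (by omega)⟩

theorem sb7 (h n : ℕ) (hh : 2 ≤ h) (hn : n = 54 * h + 55) : Lc (L h) n :=
  ⟨_, ms7 h, Or.inr (by omega)⟩

theorem sd7 (h n : ℕ) (hh : 2 ≤ h) (hn : n = 18 * h + 18) : Dc (L h) n :=
  ⟨_, ms7 h, by omega⟩

theorem ms8 (h : ℕ) : (36 * h + 40, 42 * h + 40) ∈ L h :=
  List.mem_append_right _ (List.mem_append_right _ (List.mem_append_right _ (List.mem_append_right _ (List.mem_append_right _ (List.mem_append_right _ (List.mem_append_right _ (List.mem_append_right _ (List.mem_append_right _ (List.mem_append_right _ (List.mem_append_right _ (List.mem_append_right _ (List.mem_cons_of_mem _ (List.mem_cons_of_mem _ (List.mem_cons_of_mem _ (List.mem_cons_of_mem _ (List.mem_cons_of_mem _ (List.mem_cons_of_mem _ (List.mem_cons_of_mem _ (List.mem_cons_of_mem _ (List.mem_cons_self))))))))))))))))))))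

theorem sa8 (h n : ℕ) (hh : 2 ≤ h) (hn : n = 36 * h + 40) : Lc (L h) n :=
  ⟨_, ms8 h, Or.inl (by omega)⟩

theorem sb8 (h n : ℕ) (hh : 2 ≤ h) (hn : n = 42 * h + 40) : Lc (L h) n :=
  ⟨_, ms8 h, Or.inr (by omega)⟩

theorem sd8 (h n : ℕ) (hh : 2 ≤ h) (hn : n = 6 * h) : Dc (L h) n :=
  ⟨_, ms8 h, by omega⟩

theorem ms9 (h : ℕ) : (39 * h + 40, 66 * h + 68) ∈ L h :=
  List.mem_append_right _ (List.mem_append_right _ (List.mem_append_right _ (List.mem_append_right _ (List.mem_append_right _ (List.mem_append_right _ (List.mem_append_right _ (List.mem_append_right _ (List.mem_append_right _ (List.mem_append_right _ (List.mem_append_right _ (List.mem_append_right _ (List.mem_cons_of_mem _ (List.mem_cons_of_mem _ (List.mem_cons_of_mem _ (List.mem_cons_of_mem _ (List.mem_cons_of_mem _ (List.mem_cons_of_mem _ (List.mem_cons_of_mem _ (List.mem_cons_of_mem _ (List.mem_cons_of_mem _ (List.mem_cons_self)))))))))))))))))))))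

theorem sa9 (h n : ℕ) (hh : 2 ≤ h) (hn : n = 39 * h + 40) : Lc (L h) n :=
  ⟨_, ms9 h, Or.inl (by omega)⟩

theorem sb9 (h n : ℕ) (hh : 2 ≤ h) (hn : n = 66 * h + 68) : Lc (L h) n :=
  ⟨_, ms9 h, Or.inr (by omega)⟩

theorem sd9 (h n : ℕ) (hh : 2 ≤ h) (hn : n = 27 * h + 28) : Dc (L h) n :=
  ⟨_, ms9 h, by omega⟩

theorem ms10 (h : ℕ) : (39 * h + 43, 51 * h + 49) ∈ L h :=
  List.mem_append_right _ (List.mem_append_right _ (List.mem_append_right _ (List.mem_append_right _ (List.mem_append_right _ (List.mem_append_right _ (List.mem_append_right _ (List.mem_append_right _ (List.mem_append_right _ (List.mem_append_right _ (List.mem_append_right _ (List.mem_append_right _ (List.mem_cons_of_mem _ (List.mem_cons_of_mem _ (List.mem_cons_of_mem _ (List.mem_cons_of_mem _ (List.mem_cons_of_mem _ (List.mem_cons_of_mem _ (List.mem_cons_of_mem _ (List.mem_cons_of_mem _ (List.mem_cons_of_mem _ (List.mem_cons_of_mem _ (List.mem_cons_self))))))))))))))))))))))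

theorem sa10 (h n : ℕ) (hh : 2 ≤ h) (hn : n = 39 * h + 43) : Lc (L h) n :=
  ⟨_, ms10 h, Or.inl (by omega)⟩

theorem sb10 (h n : ℕ) (hh : 2 ≤ h) (hn : n = 51 * h + 49) : Lc (L h) n :=
  ⟨_, ms10 h, Or.inr (by omega)⟩

theorem sd10 (h n : ℕ) (hh : 2 ≤ h) (hn : n = 12 * h + 6) : Dc (L h) n :=
  ⟨_, ms10 h, by omega⟩

theorem ms11 (h : ℕ) : (45 * h + 40, 57 * h + 58) ∈ L h :=
  List.mem_append_right _ (List.mem_append_right _ (List.mem_append_right _ (List.mem_append_right _ (List.mem_append_right _ (List.mem_append_right _ (List.mem_append_right _ (List.mem_append_right _ (List.mem_append_right _ (List.mem_append_right _ (List.mem_append_right _ (List.mem_append_right _ (List.mem_cons_of_mem _ (List.mem_cons_of_mem _ (List.mem_cons_of_mem _ (List.mem_cons_of_mem _ (List.mem_cons_of_mem _ (List.mem_cons_of_mem _ (List.mem_cons_of_mem _ (List.mem_cons_of_mem _ (List.mem_cons_of_mem _ (List.mem_cons_of_mem _ (List.mem_cons_of_mem _ (List.mem_cons_self)))))))))))))))))))))))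

theorem sa11 (h n : ℕ) (hh : 2 ≤ h) (hn : n = 45 * h + 40) : Lc (L h) n :=
  ⟨_, ms11 h, Or.inl (by omega)⟩

theorem sb11 (h n : ℕ) (hh : 2 ≤ h) (hn : n = 57 * h + 58) : Lc (L h) n :=
  ⟨_, ms11 h, Or.inr (by omega)⟩

theorem sd11 (h n : ℕ) (hh : 2 ≤ h) (hn : n = 12 * h + 18) : Dc (L h) n :=
  ⟨_, ms11 h, by omega⟩

theorem ms12 (h : ℕ) : (45 * h + 43, 72 * h + 74) ∈ L h :=
  List.mem_append_right _ (List.mem_append_right _ (List.mem_append_right _ (List.mem_append_right _ (List.mem_append_right _ (List.mem_append_right _ (List.mem_append_right _ (List.mem_append_right _ (List.mem_append_right _ (List.mem_append_right _ (List.mem_append_right _ (List.mem_append_right _ (List.mem_cons_of_mem _ (List.mem_cons_of_mem _ (List.mem_cons_of_mem _ (List.mem_cons_of_mem _ (List.mem_cons_of_mem _ (List.mem_cons_of_mem _ (List.mem_cons_of_mem _ (List.mem_cons_of_mem _ (List.mem_cons_of_mem _ (List.mem_cons_of_mem _ (List.mem_cons_of_mem _ (List.mem_cons_of_mem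 _ (List.mem_cons_self))))))))))))))))))))))))

theorem sa12 (h n : ℕ) (hh : 2 ≤ h) (hn : n = 45 * h + 43) : Lc (L h) n :=
  ⟨_, ms12 h, Or.inl (by omega)⟩

theorem sb12 (h n : ℕ) (hh : 2 ≤ h) (hn : n = 72 * h + 74) : Lc (L h) n :=
  ⟨_, ms12 h, Or.inr (by omega)⟩

theorem sd12 (h n : ℕ) (hh : 2 ≤ h) (hn : n = 27 * h + 31) : Dc (L h) n :=
  ⟨_, ms12 h, by omega⟩

theorem ms13 (h : ℕ) : (45 * h + 46, 51 * h + 52) ∈ L h :=
  List.mem_append_right _ (List.mem_append_right _ (List.mem_append_right _ (List.mem_append_right _ (List.mem_append_right _ (List.mem_append_right _ (List.mem_append_right _ (List.mem_append_right _ (List.mem_append_right _ (List.mem_append_right _ (List.mem_append_right _ (List.mem_append_right _ (List.mem_cons_of_mem _ (List.mem_cons_of_mem _ (List.mem_cons_of_mem _ (List.mem_cons_of_mem _ (List.mem_cons_of_mem _ (List.mem_cons_of_mem _ (List.mem_cons_of_mem _ (List.mem_cons_of_mem _ (List.mem_cons_of_mem _ (List.mem_cons_of_mem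 _ (List.mem_cons_of_mem _ (List.mem_cons_of_mem _ (List.mem_cons_of_mem _ (List.mem_cons_self)))))))))))))))))))))))))

theorem sa13 (h n : ℕ) (hh : 2 ≤ h) (hn : n = 45 * h + 46) : Lc (L h) n :=
  ⟨_, ms13 h, Or.inl (by omega)⟩

theorem sb13 (h n : ℕ) (hh : 2 ≤ h) (hn : n = 51 * h + 52) : Lc (L h) n :=
  ⟨_, ms13 h, Or.inr (by omega)⟩

theorem sd13 (h n : ℕ) (hh : 2 ≤ h) (hn : n = 6 * h + 6) : Dc (L h) n :=
  ⟨_, ms13 h, by omega⟩

theorem ms14 (h : ℕ) : (48 * h + 46, 66 * h + 66) ∈ L h :=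
  List.mem_append_right _ (List.mem_append_right _ (List.mem_append_right _ (List.mem_append_right _ (List.mem_append_right _ (List.mem_append_right _ (List.mem_append_right _ (List.mem_append_right _ (List.mem_append_right _ (List.mem_append_right _ (List.mem_append_right _ (List.mem_append_right _ (List.mem_cons_of_mem _ (List.mem_cons_of_mem _ (List.mem_cons_of_mem _ (List.mem_cons_of_mem _ (List.mem_cons_of_mem _ (List.mem_cons_of_mem _ (List.mem_cons_of_mem _ (List.mem_cons_of_mem _ (List.mem_cons_of_mem _ (List.mem_cons_of_mem _ (List.mem_cons_of_mem _ (List.mem_cons_of_mem _ (List.mem_cons_of_mem _ (List.mem_cons_of_mem _ (List.mem_cons_self))))))))))))))))))))))))))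

theorem sa14 (h n : ℕ) (hh : 2 ≤ h) (hn : n = 48 * h + 46) : Lc (L h) n :=
  ⟨_, ms14 h, Or.inl (by omega)⟩

theorem sb14 (h n : ℕ) (hh : 2 ≤ h) (hn : n = 66 * h + 66) : Lc (L h) n :=
  ⟨_, ms14 h, Or.inr (by omega)⟩

theorem sd14 (h n : ℕ) (hh : 2 ≤ h) (hn : n = 18 * h + 20) : Dc (L h) n :=
  ⟨_, ms14 h, by omega⟩

theorem ms15 (h : ℕ) : (48 * h + 49, 60 * h + 63) ∈ L h :=
  List.mem_append_right _ (List.mem_append_right _ (List.mem_append_right _ (List.mem_append_right _ (List.mem_append_right _ (List.mem_append_right _ (List.mem_append_right _ (List.mem_append_right _ (List.mem_append_right _ (List.mem_append_right _ (List.mem_append_right _ (List.mem_append_right _ (List.mem_cons_of_mem _ (List.mem_cons_of_mem _ (List.mem_cons_of_mem _ (List.mem_cons_of_mem _ (List.mem_cons_of_mem _ (List.mem_cons_of_mem _ (List.mem_cons_of_mem _ (List.mem_cons_of_mem _ (List.mem_cons_of_mem _ (List.mem_cons_of_mem _ (List.mem_cons_of_mem _ (List.mem_cons_of_mem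 _ (List.mem_cons_of_mem _ (List.mem_cons_of_mem _ (List.mem_cons_of_mem _ (List.mem_cons_self)))))))))))))))))))))))))))

theorem sa15 (h n : ℕ) (hh : 2 ≤ h) (hn : n = 48 * h + 49) : Lc (L h) n :=
  ⟨_, ms15 h, Or.inl (by omega)⟩

theorem sb15 (h n : ℕ) (hh : 2 ≤ h) (hn : n = 60 * h + 63) : Lc (L h) n :=
  ⟨_, ms15 h, Or.inr (by omega)⟩

theorem sd15 (h n : ℕ) (hh : 2 ≤ h) (hn : n = 12 * h + 14) : Dc (L h) n :=
  ⟨_, ms15 h, by omega⟩

theorem ms16 (h : ℕ) : (54 * h + 58, 72 * h + 72) ∈ L h :=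
  List.mem_append_right _ (List.mem_append_right _ (List.mem_append_right _ (List.mem_append_right _ (List.mem_append_right _ (List.mem_append_right _ (List.mem_append_right _ (List.mem_append_right _ (List.mem_append_right _ (List.mem_append_right _ (List.mem_append_right _ (List.mem_append_right _ (List.mem_cons_of_mem _ (List.mem_cons_of_mem _ (List.mem_cons_of_mem _ (List.mem_cons_of_mem _ (List.mem_cons_of_mem _ (List.mem_cons_of_mem _ (List.mem_cons_of_mem _ (List.mem_cons_of_mem _ (List.mem_cons_of_mem _ (List.mem_cons_of_mem _ (List.mem_cons_of_mem _ (List.mem_cons_of_mem _ (List.mem_cons_of_mem _ (List.mem_cons_of_mem _ (List.mem_cons_of_mem _ (List.mem_cons_of_mem _ (List.mem_cons_self))))))))))))))))))))))))))))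

theorem sa16 (h n : ℕ) (hh : 2 ≤ h) (hn : n = 54 * h + 58) : Lc (L h) n :=
  ⟨_, ms16 h, Or.inl (by omega)⟩

theorem sb16 (h n : ℕ) (hh : 2 ≤ h) (hn : n = 72 * h + 72) : Lc (L h) n :=
  ⟨_, ms16 h, Or.inr (by omega)⟩

theorem sd16 (h n : ℕ) (hh : 2 ≤ h) (hn : n = 18 * h + 14) : Dc (L h) n :=
  ⟨_, ms16 h, by omega⟩

theorem ms17 (h : ℕ) : (57 * h + 55, 84 * h + 85) ∈ L h :=
  List.mem_append_right _ (List.mem_append_right _ (List.mem_append_right _ (List.mem_append_right _ (List.mem_append_right _ (List.mem_append_right _ (List.mem_append_right _ (List.mem_append_right _ (List.mem_append_right _ (List.mem_append_right _ (List.mem_append_right _ (List.mem_append_right _ (List.mem_cons_of_mem _ (List.mem_cons_of_mem _ (List.mem_cons_of_mem _ (List.mem_cons_of_mem _ (List.mem_cons_of_mem _ (List.mem_cons_of_mem _ (List.mem_cons_of_mem _ (List.mem_cons_of_mem _ (List.mem_cons_of_mem _ (List.mem_cons_of_mem _ (List.mem_cons_of_mem _ (List.mem_cons_of_mem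 _ (List.mem_cons_of_mem _ (List.mem_cons_of_mem _ (List.mem_cons_of_mem _ (List.mem_cons_of_mem _ (List.mem_cons_of_mem _ (List.mem_cons_self)))))))))))))))))))))))))))))

theorem sa17 (h n : ℕ) (hh : 2 ≤ h) (hn : n = 57 * h + 55) : Lc (L h) n :=
  ⟨_, ms17 h, Or.inl (by omega)⟩

theorem sb17 (h n : ℕ) (hh : 2 ≤ h) (hn : n = 84 * h + 85) : Lc (L h) n :=
  ⟨_, ms17 h, Or.inr (by omega)⟩

theorem sd17 (h n : ℕ) (hh : 2 ≤ h) (hn : n = 27 * h + 30) : Dc (L h) n :=
  ⟨_, ms17 h, by omega⟩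

theorem ms18 (h : ℕ) : (60 * h + 60, 72 * h + 76) ∈ L h :=
  List.mem_append_right _ (List.mem_append_right _ (List.mem_append_right _ (List.mem_append_right _ (List.mem_append_right _ (List.mem_append_right _ (List.mem_append_right _ (List.mem_append_right _ (List.mem_append_right _ (List.mem_append_right _ (List.mem_append_right _ (List.mem_append_right _ (List.mem_cons_of_mem _ (List.mem_cons_of_mem _ (List.mem_cons_of_mem _ (List.mem_cons_of_mem _ (List.mem_cons_of_mem _ (List.mem_cons_of_mem _ (List.mem_cons_of_mem _ (List.mem_cons_of_mem _ (List.mem_cons_of_mem _ (List.mem_cons_of_mem _ (List.mem_cons_of_mem _ (List.mem_cons_of_mem _ (List.mem_cons_of_mem _ (List.mem_cons_of_mem _ (List.mem_cons_of_mem _ (List.mem_cons_of_mem _ (List.mem_cons_of_mem _ (List.mem_cons_of_mem _ (List.mem_cons_self))))))))))))))))))))))))))))))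

theorem sa18 (h n : ℕ) (hh : 2 ≤ h) (hn : n = 60 * h + 60) : Lc (L h) n :=
  ⟨_, ms18 h, Or.inl (by omega)⟩

theorem sb18 (h n : ℕ) (hh : 2 ≤ h) (hn : n = 72 * h + 76) : Lc (L h) n :=
  ⟨_, ms18 h, Or.inr (by omega)⟩

theorem sd18 (h n : ℕ) (hh : 2 ≤ h) (hn : n = 12 * h + 16) : Dc (L h) n :=
  ⟨_, ms18 h, by omega⟩

theorem ms19 (h : ℕ) : (64 * h + 66, 76 * h + 76) ∈ L h :=
  List.mem_append_right _ (List.mem_append_right _ (List.mem_append_right _ (List.mem_append_right _ (List.mem_append_right _ (List.mem_append_right _ (List.mem_append_right _ (List.mem_append_right _ (List.mem_append_right _ (List.mem_append_right _ (List.mem_append_right _ (List.mem_append_right _ (List.mem_cons_of_mem _ (List.mem_cons_of_mem _ (List.mem_cons_of_mem _ (List.mem_cons_of_mem _ (List.mem_cons_of_mem _ (List.mem_cons_of_mem _ (List.mem_cons_of_mem _ (List.mem_cons_of_mem _ (List.mem_cons_of_mem _ (List.mem_cons_of_mem _ (List.mem_cons_of_mem _ (List.mem_cons_of_mem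 _ (List.mem_cons_of_mem _ (List.mem_cons_of_mem _ (List.mem_cons_of_mem _ (List.mem_cons_of_mem _ (List.mem_cons_of_mem _ (List.mem_cons_of_mem _ (List.mem_cons_of_mem _ (List.mem_cons_self)))))))))))))))))))))))))))))))

theorem sa19 (h n : ℕ) (hh : 2 ≤ h) (hn : n = 64 * h + 66) : Lc (L h) n :=
  ⟨_, ms19 h, Or.inl (by omega)⟩

theorem sb19 (h n : ℕ) (hh : 2 ≤ h) (hn : n = 76 * h + 76) : Lc (L h) n :=
  ⟨_, ms19 h, Or.inr (by omega)⟩

theorem sd19 (h n : ℕ) (hh : 2 ≤ h) (hn : n = 12 * h + 10) : Dc (L h) n :=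
  ⟨_, ms19 h, by omega⟩

theorem ms20 (h : ℕ) : (68 * h + 68, 80 * h + 80) ∈ L h :=
  List.mem_append_right _ (List.mem_append_right _ (List.mem_append_right _ (List.mem_append_right _ (List.mem_append_right _ (List.mem_append_right _ (List.mem_append_right _ (List.mem_append_right _ (List.mem_append_right _ (List.mem_append_right _ (List.mem_append_right _ (List.mem_append_right _ (List.mem_cons_of_mem _ (List.mem_cons_of_mem _ (List.mem_cons_of_mem _ (List.mem_cons_of_mem _ (List.mem_cons_of_mem _ (List.mem_cons_of_mem _ (List.mem_cons_of_mem _ (List.mem_cons_of_mem _ (List.mem_cons_of_mem _ (List.mem_cons_of_mem _ (List.mem_cons_of_mem _ (List.mem_cons_of_mem _ (List.mem_cons_of_mem _ (List.mem_cons_of_mem _ (List.mem_cons_of_mem _ (List.mem_cons_of_mem _ (List.mem_cons_of_mem _ (List.mem_cons_of_mem _ (List.mem_cons_of_mem _ (List.mem_cons_of_mem _ (List.mem_cons_self))))))))))))))))))))))))))))))))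

theorem sa20 (h n : ℕ) (hh : 2 ≤ h) (hn : n = 68 * h + 68) : Lc (L h) n :=
  ⟨_, ms20 h, Or.inl (by omega)⟩

theorem sb20 (h n : ℕ) (hh : 2 ≤ h) (hn : n = 80 * h + 80) : Lc (L h) n :=
  ⟨_, ms20 h, Or.inr (by omega)⟩

theorem sd20 (h n : ℕ) (hh : 2 ≤ h) (hn : n = 12 * h + 12) : Dc (L h) n :=
  ⟨_, ms20 h, by omega⟩

theorem ms21 (h : ℕ) : (70 * h + 68, 76 * h + 78) ∈ L h :=
  List.mem_append_right _ (List.mem_append_right _ (List.mem_append_right _ (List.mem_append_right _ (List.mem_append_right _ (List.mem_append_right _ (List.mem_append_right _ (List.mem_append_right _ (List.mem_append_right _ (List.mem_append_right _ (List.mem_append_right _ (List.mem_append_right _ (List.mem_cons_of_mem _ (List.mem_cons_of_mem _ (List.mem_cons_of_mem _ (List.mem_cons_of_mem _ (List.mem_cons_of_mem _ (List.mem_cons_of_mem _ (List.mem_cons_of_mem _ (List.mem_cons_of_mem _ (List.mem_cons_of_mem _ (List.mem_cons_of_mem _ (List.mem_cons_of_mem _ (List.mem_cons_of_mem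 _ (List.mem_cons_of_mem _ (List.mem_cons_of_mem _ (List.mem_cons_of_mem _ (List.mem_cons_of_mem _ (List.mem_cons_of_mem _ (List.mem_cons_of_mem _ (List.mem_cons_of_mem _ (List.mem_cons_of_mem _ (List.mem_cons_of_mem _ (List.mem_cons_self)))))))))))))))))))))))))))))))))

theorem sa21 (h n : ℕ) (hh : 2 ≤ h) (hn : n = 70 * h + 68) : Lc (L h) n :=
  ⟨_, ms21 h, Or.inl (by omega)⟩

theorem sb21 (h n : ℕ) (hh : 2 ≤ h) (hn : n = 76 * h + 78) : Lc (L h) n :=
  ⟨_, ms21 h, Or.inr (by omega)⟩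

theorem sd21 (h n : ℕ) (hh : 2 ≤ h) (hn : n = 6 * h + 10) : Dc (L h) n :=
  ⟨_, ms21 h, by omega⟩

theorem ms22 (h : ℕ) : (70 * h + 70, 76 * h + 74) ∈ L h :=
  List.mem_append_right _ (List.mem_append_right _ (List.mem_append_right _ (List.mem_append_right _ (List.mem_append_right _ (List.mem_append_right _ (List.mem_append_right _ (List.mem_append_right _ (List.mem_append_right _ (List.mem_append_right _ (List.mem_append_right _ (List.mem_append_right _ (List.mem_cons_of_mem _ (List.mem_cons_of_mem _ (List.mem_cons_of_mem _ (List.mem_cons_of_mem _ (List.mem_cons_of_mem _ (List.mem_cons_of_mem _ (List.mem_cons_of_mem _ (List.mem_cons_of_mem _ (List.mem_cons_of_mem _ (List.mem_cons_of_mem _ (List.mem_cons_of_mem _ (List.mem_cons_of_mem _ (List.mem_cons_of_mem _ (List.mem_cons_of_mem _ (List.mem_cons_of_mem _ (List.mem_cons_of_mem _ (List.mem_cons_of_mem _ (List.mem_cons_of_mem _ (List.mem_cons_of_mem _ (List.mem_cons_of_mem _ (List.mem_cons_of_mem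 _ (List.mem_cons_of_mem _ (List.mem_cons_self))))))))))))))))))))))))))))))))))

theorem sa22 (h n : ℕ) (hh : 2 ≤ h) (hn : n = 70 * h + 70) : Lc (L h) n :=
  ⟨_, ms22 h, Or.inl (by omega)⟩

theorem sb22 (h n : ℕ) (hh : 2 ≤ h) (hn : n = 76 * h + 74) : Lc (L h) n :=
  ⟨_, ms22 h, Or.inr (by omega)⟩

theorem sd22 (h n : ℕ) (hh : 2 ≤ h) (hn : n = 6 * h + 4) : Dc (L h) n :=
  ⟨_, ms22 h, by omega⟩

theorem ms23 (h : ℕ) : (70 * h + 72, 76 * h + 80) ∈ L h :=
  List.mem_append_right _ (List.mem_append_right _ (List.mem_append_right _ (List.mem_append_right _ (List.mem_append_right _ (List.mem_append_right _ (List.mem_append_right _ (List.mem_append_right _ (List.mem_append_right _ (List.mem_append_right _ (List.mem_append_right _ (List.mem_append_right _ (List.mem_cons_of_mem _ (List.mem_cons_of_mem _ (List.mem_cons_of_mem _ (List.mem_cons_of_mem _ (List.mem_cons_of_mem _ (List.mem_cons_of_mem _ (List.mem_cons_of_mem _ (List.mem_cons_of_mem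 _ (List.mem_cons_of_mem _ (List.mem_cons_of_mem _ (List.mem_cons_of_mem _ (List.mem_cons_of_mem _ (List.mem_cons_of_mem _ (List.mem_cons_of_mem _ (List.mem_cons_of_mem _ (List.mem_cons_of_mem _ (List.mem_cons_of_mem _ (List.mem_cons_of_mem _ (List.mem_cons_of_mem _ (List.mem_cons_of_mem _ (List.mem_cons_of_mem _ (List.mem_cons_of_mem _ (List.mem_cons_of_mem _ (List.mem_cons_self)))))))))))))))))))))))))))))))))))

theorem sa23 (h n : ℕ) (hh : 2 ≤ h) (hn : n = 70 * h + 72) : Lc (L h) n :=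
  ⟨_, ms23 h, Or.inl (by omega)⟩

theorem sb23 (h n : ℕ) (hh : 2 ≤ h) (hn : n = 76 * h + 80) : Lc (L h) n :=
  ⟨_, ms23 h, Or.inr (by omega)⟩

theorem sd23 (h n : ℕ) (hh : 2 ≤ h) (hn : n = 6 * h + 8) : Dc (L h) n :=
  ⟨_, ms23 h, by omega⟩

theorem ms24 (h : ℕ) : (80 * h + 78, 80 * h + 84) ∈ L h :=
  List.mem_append_right _ (List.mem_append_right _ (List.mem_append_right _ (List.mem_append_right _ (List.mem_append_right _ (List.mem_append_right _ (List.mem_append_right _ (List.mem_append_right _ (List.mem_append_right _ (List.mem_append_right _ (List.mem_append_right _ (List.mem_append_right _ (List.mem_cons_of_mem _ (List.mem_cons_of_mem _ (List.mem_cons_of_mem _ (List.mem_cons_of_mem _ (List.mem_cons_of_mem _ (List.mem_cons_of_mem _ (List.mem_cons_of_mem _ (List.mem_cons_of_mem _ (List.mem_cons_of_mem _ (List.mem_cons_of_mem _ (List.mem_cons_of_mem _ (List.mem_cons_of_mem _ (List.mem_cons_of_mem _ (List.mem_cons_of_mem _ (List.mem_cons_of_mem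 _ (List.mem_cons_of_mem _ (List.mem_cons_of_mem _ (List.mem_cons_of_mem _ (List.mem_cons_of_mem _ (List.mem_cons_of_mem _ (List.mem_cons_of_mem _ (List.mem_cons_of_mem _ (List.mem_cons_of_mem _ (List.mem_cons_of_mem _ (List.mem_cons_self))))))))))))))))))))))))))))))))))))

theorem sa24 (h n : ℕ) (hh : 2 ≤ h) (hn : n = 80 * h + 78) : Lc (L h) n :=
  ⟨_, ms24 h, Or.inl (by omega)⟩

theorem sb24 (h n : ℕ) (hh : 2 ≤ h) (hn : n = 80 * h + 84) : Lc (L h) n :=
  ⟨_, ms24 h, Or.inr (by omega)⟩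

theorem sd24 (h n : ℕ) (hh : 2 ≤ h) (hn : n = 6) : Dc (L h) n :=
  ⟨_, ms24 h, by omega⟩

theorem lT0 (h n : ℕ) (hh : 2 ≤ h) (hr : n % 3 = 2) (ha : 24 * h + 23 ≤ n) (hb : n ≤ 27 * h + 26) : Lc (L h) n := by
  by_cases c0 : n ≤ 24 * h + 23
  · exact sa1 h n hh (by omega)
  by_cases c1 : n ≤ 24 * h + 26
  · exact sa2 h n hh (by omega)
  by_cases c2 : n ≤ 24 * h + 29
  · exact sa3 h n hh (by omega)
  exact a0 h n ((n - (24 * h + 32)) / 3) hh (by omega) (by omega)

theorem lT1 (h n : ℕ) (hh : 2 ≤ h) (hr : n % 3 = 1) (ha : 27 * h + 34 ≤ n) (hb : n ≤ 57 * h + 58) : Lc (L h) n := by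
  by_cases c0 : n ≤ 30 * h + 28
  · exact b0 h n (((30 * h + 28) - n) / 3) hh (by omega) (by omega)
  by_cases c1 : n ≤ 30 * h + 31
  · exact sb3 h n hh (by omega)
  by_cases c2 : n ≤ 30 * h + 34
  · exact sa4 h n hh (by omega)
  by_cases c3 : n ≤ 33 * h + 31
  · exact a4 h n ((n - (30 * h + 37)) / 3) hh (by omega) (by omega)
  by_cases c4 : n ≤ 33 * h + 34
  · exact sa5 h n hh (by omega)
  by_cases c5 : n ≤ 36 * h + 28
  · exact a2 h n ((n - (33 * h + 37)) / 3) hh (by omega) (by omega)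
  by_cases c6 : n ≤ 36 * h + 31
  · exact sa6 h n hh (by omega)
  by_cases c7 : n ≤ 36 * h + 34
  · exact sb2 h n hh (by omega)
  by_cases c8 : n ≤ 36 * h + 37
  · exact sa7 h n hh (by omega)
  by_cases c9 : n ≤ 36 * h + 40
  · exact sa8 h n hh (by omega)
  by_cases c10 : n ≤ 39 * h + 37
  · exact a5 h n ((n - (36 * h + 43)) / 3) hh (by omega) (by omega)
  by_cases c11 : n ≤ 39 * h + 40
  · exact sa9 h n hh (by omega)
  by_cases c12 : n ≤ 39 * h + 43
  · exact sa10 h n hh (by omega)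
  by_cases c13 : n ≤ 42 * h + 37
  · exact a3 h n ((n - (39 * h + 46)) / 3) hh (by omega) (by omega)
  by_cases c14 : n ≤ 42 * h + 40
  · exact sb8 h n hh (by omega)
  by_cases c15 : n ≤ 42 * h + 43
  · exact sb6 h n hh (by omega)
  by_cases c16 : n ≤ 45 * h + 37
  · exact b2 h n (((45 * h + 37) - n) / 3) hh (by omega) (by omega)
  by_cases c17 : n ≤ 45 * h + 40
  · exact sa11 h n hh (by omega)
  by_cases c18 : n ≤ 45 * h + 43
  · exact sa12 h n hh (by omega)
  by_cases c19 : n ≤ 45 * h + 46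
  · exact sa13 h n hh (by omega)
  by_cases c20 : n ≤ 48 * h + 40
  · exact a1 h n ((n - (45 * h + 49)) / 3) hh (by omega) (by omega)
  by_cases c21 : n ≤ 48 * h + 43
  · exact sb1 h n hh (by omega)
  by_cases c22 : n ≤ 48 * h + 46
  · exact sa14 h n hh (by omega)
  by_cases c23 : n ≤ 48 * h + 49
  · exact sa15 h n hh (by omega)
  by_cases c24 : n ≤ 51 * h + 43
  · exact b1 h n (((51 * h + 43) - n) / 3) hh (by omega) (by omega)
  by_cases c25 : n ≤ 51 * h + 46
  · exact sb5 h n hh (by omega)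
  by_cases c26 : n ≤ 51 * h + 49
  · exact sb10 h n hh (by omega)
  by_cases c27 : n ≤ 51 * h + 52
  · exact sb13 h n hh (by omega)
  by_cases c28 : n ≤ 54 * h + 49
  · exact b4 h n (((54 * h + 49) - n) / 3) hh (by omega) (by omega)
  by_cases c29 : n ≤ 54 * h + 52
  · exact sb4 h n hh (by omega)
  by_cases c30 : n ≤ 54 * h + 55
  · exact sb7 h n hh (by omega)
  by_cases c31 : n ≤ 54 * h + 58
  · exact sa16 h n hh (by omega)
  by_cases c32 : n ≤ 57 * h + 52
  · exact b3 h n (((57 * h + 52) - n) / 3) hh (by omega) (by omega)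
  by_cases c33 : n ≤ 57 * h + 55
  · exact sa17 h n hh (by omega)
  exact sb11 h n hh (by omega)

theorem lT2 (h n : ℕ) (hh : 2 ≤ h) (hr : n % 3 = 0) (ha : 57 * h + 60 ≤ n) (hb : n ≤ 60 * h + 63) : Lc (L h) n := by
  by_cases c0 : n ≤ 57 * h + 60
  · exact sb0 h n hh (by omega)
  by_cases c1 : n ≤ 60 * h + 57
  · exact b5 h n (((60 * h + 57) - n) / 3) hh (by omega) (by omega)
  by_cases c2 : n ≤ 60 * h + 60
  · exact sa18 h n hh (by omega)
  exact sb15 h n hh (by omega)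

theorem lWa (h n : ℕ) (hh : 2 ≤ h) (hr : n % 2 = 0) (ha : 60 * h + 66 ≤ n) (hb : n ≤ 72 * h + 76) : Lc (L h) n := by
  by_cases c0 : n ≤ 62 * h + 66
  · exact a10 h n (((62 * h + 66) - n) / 2) hh (by omega) (by omega)
  by_cases c1 : n ≤ 64 * h + 64
  · exact a8 h n (((64 * h + 64) - n) / 2) hh (by omega) (by omega)
  by_cases c2 : n ≤ 64 * h + 66
  · exact sa19 h n hh (by omega)
  by_cases c3 : n ≤ 66 * h + 64
  · exact a6 h n (((66 * h + 64) - n) / 2) hh (by omega) (by omega)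
  by_cases c4 : n ≤ 66 * h + 66
  · exact sb14 h n hh (by omega)
  by_cases c5 : n ≤ 66 * h + 68
  · exact sb9 h n hh (by omega)
  by_cases c6 : n ≤ 68 * h + 66
  · exact a11 h n (((68 * h + 66) - n) / 2) hh (by omega) (by omega)
  by_cases c7 : n ≤ 68 * h + 68
  · exact sa20 h n hh (by omega)
  by_cases c8 : n ≤ 70 * h + 66
  · exact a9 h n (((70 * h + 66) - n) / 2) hh (by omega) (by omega)
  by_cases c9 : n ≤ 70 * h + 68
  · exact sa21 h n hh (by omega)
  by_cases c10 : n ≤ 70 * h + 70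
  · exact sa22 h n hh (by omega)
  by_cases c11 : n ≤ 70 * h + 72
  · exact sa23 h n hh (by omega)
  by_cases c12 : n ≤ 72 * h + 70
  · exact a7 h n (((72 * h + 70) - n) / 2) hh (by omega) (by omega)
  by_cases c13 : n ≤ 72 * h + 72
  · exact sb16 h n hh (by omega)
  by_cases c14 : n ≤ 72 * h + 74
  · exact sb12 h n hh (by omega)
  exact sb18 h n hh (by omega)

theorem lWb0 (h n : ℕ) (hh : 2 ≤ h) (hr : n % 4 = 0) (ha : 72 * h + 72 ≤ n) (hb : n ≤ 84 * h + 80) : Lc (L h) n := by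
  by_cases c0 : n ≤ 72 * h + 72
  · exact sb16 h n hh (by omega)
  by_cases c1 : n ≤ 72 * h + 76
  · exact sb18 h n hh (by omega)
  by_cases c2 : n ≤ 76 * h + 72
  · exact b7 h n ((n - (72 * h + 80)) / 4) hh (by omega) (by omega)
  by_cases c3 : n ≤ 76 * h + 76
  · exact sb19 h n hh (by omega)
  by_cases c4 : n ≤ 76 * h + 80
  · exact sb23 h n hh (by omega)
  by_cases c5 : n ≤ 80 * h + 76
  · exact b8 h n ((n - (76 * h + 84)) / 4) hh (by omega) (by omega)
  by_cases c6 : n ≤ 80 * h + 80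
  · exact sb20 h n hh (by omega)
  by_cases c7 : n ≤ 80 * h + 84
  · exact sb24 h n hh (by omega)
  exact b11 h n ((n - (80 * h + 88)) / 4) hh (by omega) (by omega)

theorem lWb2 (h n : ℕ) (hh : 2 ≤ h) (hr : n % 4 = 2) (ha : 72 * h + 74 ≤ n) (hb : n ≤ 84 * h + 82) : Lc (L h) n := by
  by_cases c0 : n ≤ 72 * h + 74
  · exact sb12 h n hh (by omega)
  by_cases c1 : n ≤ 76 * h + 70
  · exact b6 h n ((n - (72 * h + 78)) / 4) hh (by omega) (by omega)
  by_cases c2 : n ≤ 76 * h + 74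
  · exact sb22 h n hh (by omega)
  by_cases c3 : n ≤ 76 * h + 78
  · exact sb21 h n hh (by omega)
  by_cases c4 : n ≤ 80 * h + 74
  · exact b9 h n ((n - (76 * h + 82)) / 4) hh (by omega) (by omega)
  by_cases c5 : n ≤ 80 * h + 78
  · exact sa24 h n hh (by omega)
  exact b10 h n ((n - (80 * h + 82)) / 4) hh (by omega) (by omega)

theorem lW (h n : ℕ) (hh : 2 ≤ h) (hr : n % 2 = 0) (ha : 60 * h + 66 ≤ n) (hb : n ≤ 84 * h + 82) : Lc (L h) n := by
  by_cases c0 : n ≤ 72 * h + 76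
  · exact lWa h n hh hr ha c0
  by_cases c1 : n % 4 = 0
  · exact lWb0 h n hh c1 (by omega) (by omega)
  exact lWb2 h n hh (by omega) (by omega) (by omega)

theorem lD0 (h n : ℕ) (hh : 2 ≤ h) (hr : n % 6 = 0) (ha : 6 ≤ n) (hb : n ≤ 24 * h + 18) : Dc (L h) n := by
  by_cases c0 : n ≤ 6
  · exact sd24 h n hh (by omega)
  by_cases c1 : n + 6 ≤ 6 * h
  · exact d1 h n (((6 * h - 6) - n) / 6) hh (by omega) (by omega)
  by_cases c2 : n ≤ 6 * h
  · exact sd8 h n hh (by omega)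
  by_cases c3 : n ≤ 6 * h + 6
  · exact sd13 h n hh (by omega)
  by_cases c4 : n ≤ 6 * h + 12
  · exact sd6 h n hh (by omega)
  by_cases c5 : n ≤ 12 * h
  · exact d2 h n (((12 * h) - n) / 6) hh (by omega) (by omega)
  by_cases c6 : n ≤ 12 * h + 6
  · exact sd10 h n hh (by omega)
  by_cases c7 : n ≤ 12 * h + 12
  · exact sd20 h n hh (by omega)
  by_cases c8 : n ≤ 12 * h + 18
  · exact sd11 h n hh (by omega)
  by_cases c9 : n ≤ 18 * h + 6
  · exact d3 h n (((18 * h + 6) - n) / 6) hh (by omega) (by omega)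
  by_cases c10 : n ≤ 18 * h + 12
  · exact sd5 h n hh (by omega)
  by_cases c11 : n ≤ 18 * h + 18
  · exact sd7 h n hh (by omega)
  by_cases c12 : n ≤ 24 * h + 12
  · exact d4 h n (((24 * h + 12) - n) / 6) hh (by omega) (by omega)
  exact sd4 h n hh (by omega)

theorem lD2 (h n : ℕ) (hh : 2 ≤ h) (hr : n % 6 = 2) (ha : 8 ≤ n) (hb : n ≤ 24 * h + 20) : Dc (L h) n := by
  by_cases c0 : n + 4 ≤ 6 * h
  · exact d0 h n (((6 * h - 4) - n) / 6) hh (by omega) (by omega)
  by_cases c1 : n ≤ 6 * h + 2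
  · exact sd3 h n hh (by omega)
  by_cases c2 : n ≤ 6 * h + 8
  · exact sd23 h n hh (by omega)
  by_cases c3 : n ≤ 12 * h + 2
  · exact d6 h n ((n - (6 * h + 14)) / 6) hh (by omega) (by omega)
  by_cases c4 : n ≤ 12 * h + 8
  · exact sd2 h n hh (by omega)
  by_cases c5 : n ≤ 12 * h + 14
  · exact sd15 h n hh (by omega)
  by_cases c6 : n ≤ 18 * h + 8
  · exact d8 h n ((n - (12 * h + 20)) / 6) hh (by omega) (by omega)
  by_cases c7 : n ≤ 18 * h + 14
  · exact sd16 h n hh (by omega)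
  by_cases c8 : n ≤ 18 * h + 20
  · exact sd14 h n hh (by omega)
  by_cases c9 : n ≤ 24 * h + 14
  · exact d5 h n (((24 * h + 14) - n) / 6) hh (by omega) (by omega)
  exact sd1 h n hh (by omega)

theorem lD4 (h n : ℕ) (hh : 2 ≤ h) (hr : n % 6 = 4) (ha : 10 ≤ n) (hb : n ≤ 24 * h + 16) : Dc (L h) n := by
  by_cases c0 : n + 2 ≤ 6 * h
  · exact d7 h n ((n - (10)) / 6) hh (by omega) (by omega)
  by_cases c1 : n ≤ 6 * h + 4
  · exact sd22 h n hh (by omega)
  by_cases c2 : n ≤ 6 * h + 10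
  · exact sd21 h n hh (by omega)
  by_cases c3 : n ≤ 12 * h + 4
  · exact d9 h n ((n - (6 * h + 16)) / 6) hh (by omega) (by omega)
  by_cases c4 : n ≤ 12 * h + 10
  · exact sd19 h n hh (by omega)
  by_cases c5 : n ≤ 12 * h + 16
  · exact sd18 h n hh (by omega)
  by_cases c6 : n ≤ 18 * h + 10
  · exact d11 h n ((n - (12 * h + 22)) / 6) hh (by omega) (by omega)
  exact d10 h n ((n - (18 * h + 16)) / 6) hh (by omega) (by omega)

theorem lD (h n : ℕ) (hh : 2 ≤ h) (hr : n % 2 = 0) (ha : 6 ≤ n) (hb : n ≤ 24 * h + 20) : Dc (L h) n := by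
  by_cases c0 : n % 6 = 0
  · exact lD0 h n hh c0 (by omega) (by omega)
  by_cases c1 : n % 6 = 2
  · exact lD2 h n hh c1 (by omega) (by omega)
  exact lD4 h n hh (by omega) (by omega) (by omega)

theorem w0 (h n : ℕ) (hh : 2 ≤ h) (ha : 1 ≤ n) (hb : n ≤ 4) : Cov (84 * h + 87) (L h) n := by
  have hc : n = 1 ∨ n = 2 ∨ n = 3 ∨ n = 4 := by omega
  rcases hc with hc | hc | hc | hc
  · exact Or.inl (by omega)
  · exact cq (by omega) (sb17 h (84 * h + 87 - n) hh (by omega))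
  · exact c1' (sa0 h (n + 1) hh (by omega))
  · exact c0' (sa0 h n hh (by omega))

theorem w27 (h n : ℕ) (hh : 2 ≤ h) (ha : 27 * h + 28 ≤ n) (hb : n ≤ 27 * h + 31) : Cov (84 * h + 87) (L h) n := by
  have hc : n = 27 * h + 28 ∨ n = 27 * h + 29 ∨ n = 27 * h + 30 ∨ n = 27 * h + 31 := by omega
  rcases hc with hc | hc | hc | hc
  · exact cD (sd9 h n hh (by omega))
  · exact cq (by omega) (sb11 h (84 * h + 87 - n) hh (by omega))
  · exact cD (sd17 h n hh (by omega))
  · exact cD (sd12 h n hh (by omega))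

theorem w57 (h n : ℕ) (hh : 2 ≤ h) (ha : 57 * h + 56 ≤ n) (hb : n ≤ 57 * h + 58) : Cov (84 * h + 87) (L h) n := by
  have hc : n = 57 * h + 56 ∨ n = 57 * h + 57 ∨ n = 57 * h + 58 := by omega
  rcases hc with hc | hc | hc
  · exact cD (sd0 h n hh (by omega))
  · exact c1' (sb11 h (n + 1) hh (by omega))
  · exact c0' (sb11 h n hh (by omega))

theorem w84 (h n : ℕ) (hh : 2 ≤ h) (ha : 84 * h + 83 ≤ n) (hb : n ≤ 84 * h + 87) : Cov (84 * h + 87) (L h) n := by
  have hc : n = 84 * h + 83 ∨ n = 84 * h + 84 ∨ n = 84 * h + 85 ∨ n = 84 * h + 86 ∨ n = 84 * h + 87 := by omega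
  rcases hc with hc | hc | hc | hc | hc
  · exact cq (by omega) (sa0 h (84 * h + 87 - n) hh (by omega))
  · exact c1' (sb17 h (n + 1) hh (by omega))
  · exact c0' (sb17 h n hh (by omega))
  · exact Or.inr (Or.inr (Or.inl (by omega)))
  · exact Or.inr (Or.inl (by omega))

theorem g0 (h n : ℕ) (hh : 2 ≤ h) (ha : 5 ≤ n) (hb : n ≤ 24 * h + 21) : Cov (84 * h + 87) (L h) n := by
  by_cases c0 : n % 2 = 0
  · exact cD (lD h n hh c0 (by omega) (by omega))
  exact cq (by omega) (lW h (84 * h + 87 - n) hh (by omega) (by omega) (by omega))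

theorem g24 (h n : ℕ) (hh : 2 ≤ h) (ha : 24 * h + 22 ≤ n) (hb : n ≤ 27 * h + 27) : Cov (84 * h + 87) (L h) n := by
  by_cases c0 : n % 3 = 2
  · exact c0' (lT0 h n hh c0 (by omega) (by omega))
  by_cases c1 : n % 3 = 1
  · exact c1' (lT0 h (n + 1) hh (by omega) (by omega) (by omega))
  exact cq (by omega) (lT2 h (84 * h + 87 - n) hh (by omega) (by omega) (by omega))

theorem g27 (h n : ℕ) (hh : 2 ≤ h) (ha : 27 * h + 32 ≤ n) (hb : n ≤ 57 * h + 55) : Cov (84 * h + 87) (L h) n := by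
  by_cases c0 : n % 3 = 1
  · exact c0' (lT1 h n hh c0 (by omega) (by omega))
  by_cases c1 : n % 3 = 0
  · exact c1' (lT1 h (n + 1) hh (by omega) (by omega) (by omega))
  exact cq (by omega) (lT1 h (84 * h + 87 - n) hh (by omega) (by omega) (by omega))

theorem g57 (h n : ℕ) (hh : 2 ≤ h) (ha : 57 * h + 59 ≤ n) (hb : n ≤ 60 * h + 64) : Cov (84 * h + 87) (L h) n := by
  by_cases c0 : n % 3 = 0
  · exact c0' (lT2 h n hh c0 (by omega) (by omega))
  by_cases c1 : n % 3 = 2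
  · exact c1' (lT2 h (n + 1) hh (by omega) (by omega) (by omega))
  exact cq (by omega) (lT0 h (84 * h + 87 - n) hh (by omega) (by omega) (by omega))

theorem g60 (h n : ℕ) (hh : 2 ≤ h) (ha : 60 * h + 65 ≤ n) (hb : n ≤ 84 * h + 82) : Cov (84 * h + 87) (L h) n := by
  by_cases c0 : n % 2 = 0
  · exact c0' (lW h n hh c0 (by omega) (by omega))
  exact c1' (lW h (n + 1) hh (by omega) (by omega) (by omega))

theorem cov (h n : ℕ) (hh : 2 ≤ h) (h1 : 1 ≤ n) (h2 : n ≤ 84 * h + 87) : Cov (84 * h + 87) (L h) n := by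
  by_cases c0 : n ≤ 4
  · exact w0 h n hh (by omega) (by omega)
  by_cases c1 : n ≤ 24 * h + 21
  · exact g0 h n hh (by omega) (by omega)
  by_cases c2 : n ≤ 27 * h + 27
  · exact g24 h n hh (by omega) (by omega)
  by_cases c3 : n ≤ 27 * h + 31
  · exact w27 h n hh (by omega) (by omega)
  by_cases c4 : n ≤ 57 * h + 55
  · exact g27 h n hh (by omega) (by omega)
  by_cases c5 : n ≤ 57 * h + 58
  · exact w57 h n hh (by omega) (by omega)
  by_cases c6 : n ≤ 60 * h + 64
  · exact g57 h n hh (by omega) (by omega)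
  by_cases c7 : n ≤ 84 * h + 82
  · exact g60 h n hh (by omega) (by omega)
  exact w84 h n hh (by omega) (by omega)

end Pool.Agent.K53.C12
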