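import Pool.Agent.K53.Basic
import Pool.Agent.Graceful.Basic

set_option autoImplicit false

/-! Lists of pairs give graceful labellings of `B(5,3,m)`. -/

namespace Pool.Agent.K53

open Pool.Agent.Graceful

theorem card_edges (m : ℕ) : Nat.card (B 5 3 m).edgeSet = 7 * m + 3 := by
  have h := two_edges 5 3 m
  have h2 : (Nat.card (B 5 3 m).edgeSet : ℝ) = ((7 * m + 3 : ℕ) : ℝ) := by
    have h4 : ((5 - 3 : ℕ) : ℝ) = 2 := by norm_num
    rw [h4] at h
    push_cast at h ⊢
    linarith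
  exact_mod_cast h2

/-- The labels of the two non-common vertices of a copy. -/
def marks (b : ℕ × ℕ) : Fin 2 → ℕ := ![b.1, b.2]

/-- Criterion for `B(5,3,m)`: `c` lists the labels of the common vertices, `L` the pairs of labels
of the other vertices of the copies. -/
theorem graceful_of_pairs (m : ℕ) (c : Fin 3 → ℕ) (L : List (ℕ × ℕ)) (hlen : L.length = m)
    (h0 : c 0 = 0)
    (hcov : ∀ n, 1 ≤ n → n ≤ 7 * m + 3 → (∃ a b, a ≠ b ∧ Nat.dist (c a) (c b) = n) ∨
      (∃ p ∈ L, ∃ a, ∃ x, Nat.dist (c a) (marks p x) = n) ∨ (∃ p ∈ L, Nat.dist p.1 p.2 = n)) :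
    IsGraceful (B 5 3 m) := by
  subst hlen
  let f : Fin 3 ⊕ Fin L.length × Fin 2 → ℕ :=
    Sum.elim c (fun p => marks (L.get p.1) p.2)
  have hadjc : ∀ a b : Fin 3, a ≠ b → (B 5 3 L.length).Adj (Sum.inl a) (Sum.inl b) :=
    fun a b hab => ⟨by simpa using hab, fun j x j' x' h => by simp at h⟩
  have hadj0 : ∀ (a : Fin 3) (p : Fin L.length × Fin 2),
      (B 5 3 L.length).Adj (Sum.inl a) (Sum.inr p) :=
    fun a p => ⟨by simp, fun j x j' x' h => by simp at h⟩
  have hadj1 : ∀ (j : Fin L.length) (x y : Fin 2), x ≠ y →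
      (B 5 3 L.length).Adj (Sum.inr (j, x)) (Sum.inr (j, y)) := by
    intro j x y hxy
    refine ⟨by simpa using hxy, ?_⟩
    intro a b c d h1 h2
    have h3 := congrArg Prod.fst (Sum.inr_injective h1)
    have h4 := congrArg Prod.fst (Sum.inr_injective h2)
    exact h3.symm.trans h4
  have hc : ∀ k, 1 ≤ k → k ≤ Nat.card (B 5 3 L.length).edgeSet →
      ∃ u v, (B 5 3 L.length).Adj u v ∧ Nat.dist (f u) (f v) = k := by
    intro k hk1 hk2
    rw [card_edges] at hk2
    rcases hcov k hk1 hk2 with ⟨a, b, hab, hd⟩ | ⟨p, hp, a, x, hd⟩ | ⟨p, hp, hd⟩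
    · exact ⟨_, _, hadjc a b hab, hd⟩
    · obtain ⟨j, rfl⟩ := List.get_of_mem hp
      exact ⟨_, _, hadj0 a (j, x), hd⟩
    · obtain ⟨j, rfl⟩ := List.get_of_mem hp
      exact ⟨_, _, hadj1 j 0 1 (by decide), hd⟩
  refine graceful_of_cover 5 3 L.length (by norm_num) f ?_ hc
  intro v
  by_cases hv : v = Sum.inl 0
  · rw [hv]
    have : f (Sum.inl 0) = 0 := h0
    rw [this]
    exact Nat.zero_le _
  · have ha : (B 5 3 L.length).Adj (Sum.inl 0) v := by
      rcases v with a | p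
      · exact hadjc 0 a (fun h => hv (by rw [h]))
      · exact hadj0 0 p
    have h1 := ((of_cover (B 5 3 L.length) f hc).1 _ _ ha).2
    have h2 : Nat.dist (f (Sum.inl 0)) (f v) = f v := by
      have : f (Sum.inl 0) = 0 := h0
      rw [this]
      simp [Nat.dist]
    rw [h2] at h1
    exact h1

theorem graceful_of_list (m : ℕ) (L : List (ℕ × ℕ)) (hlen : L.length = m)
    (hcov : ∀ n, 1 ≤ n → n ≤ 7 * m + 3 → Cov (7 * m + 3) L n) : IsGraceful (B 5 3 m) := by
  refine graceful_of_pairs m ![0, 1, 7 * m + 3] L hlen rfl ?_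
  intro n h1 h2
  rcases hcov n h1 h2 with h | h | h | ⟨p, hp, h⟩ | ⟨p, hp, h⟩ | ⟨k, hk, p, hp, h⟩ | ⟨p, hp, h⟩
  · exact Or.inl ⟨0, 1, by decide, by simp [Nat.dist, h]⟩
  · exact Or.inl ⟨0, 2, by decide, by simp [Nat.dist, h]⟩
  · exact Or.inl ⟨1, 2, by decide, by
      simp only [Matrix.cons_val_one, Matrix.cons_val_zero, Matrix.cons_val, Nat.dist]; omega⟩
  · rcases h with h | h
    · exact Or.inr (Or.inl ⟨p, hp, 0, 0, by simp [marks, Nat.dist, h]⟩)
    · exact Or.inr (Or.inl ⟨p, hp, 0, 1, by simp [marks, Nat.dist, h]⟩)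
  · rcases h with h | h
    · exact Or.inr (Or.inl ⟨p, hp, 1, 0, by
        simp only [marks, Matrix.cons_val_one, Matrix.cons_val_zero, Nat.dist]; omega⟩)
    · exact Or.inr (Or.inl ⟨p, hp, 1, 1, by
        simp only [marks, Matrix.cons_val_one, Matrix.cons_val_zero, Nat.dist]; omega⟩)
  · rcases h with h | h
    · exact Or.inr (Or.inl ⟨p, hp, 2, 0, by
        simp only [marks, Matrix.cons_val_zero, Matrix.cons_val, Nat.dist]; omega⟩)
    · exact Or.inr (Or.inl ⟨p, hp, 2, 1, by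
        simp only [marks, Matrix.cons_val_one, Matrix.cons_val, Nat.dist]; omega⟩)
  · exact Or.inr (Or.inr ⟨p, hp, by simp only [Nat.dist]; omega⟩)

end Pool.Agent.K53
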