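import Pool.Agent.K53.Graph

set_option autoImplicit false
set_option linter.style.longLine false

/-! Lists of pairs for few copies. -/

namespace Pool.Agent.K53

def Lb (p : ℕ × ℕ) (n : ℕ) : Bool := n == p.1 || n == p.2

def Cb (q : ℕ) (L : List (ℕ × ℕ)) (n : ℕ) : Bool :=
  n == 1 || n == q || n + 1 == q || L.any (fun p => Lb p n || Lb p (n + 1) || n + p.1 == q ||
    n + p.2 == q || p.1 + n == p.2)

def chk (m : ℕ) (L : List (ℕ × ℕ)) : Bool :=
  L.length == m && (List.range (7 * m + 3)).all fun n => Cb (7 * m + 3) L (n + 1)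

theorem of_chk {m : ℕ} {L : List (ℕ × ℕ)} (h : chk m L = true) :
    L.length = m ∧ ∀ n, 1 ≤ n → n ≤ 7 * m + 3 → Cov (7 * m + 3) L n := by
  simp only [chk, Bool.and_eq_true, beq_iff_eq, List.all_eq_true, List.mem_range] at h
  refine ⟨h.1, fun n h1 h2 => ?_⟩
  have h3 := h.2 (n - 1) (by omega)
  rw [Nat.sub_add_cancel h1] at h3
  simp only [Cb, Bool.or_eq_true, beq_iff_eq, List.any_eq_true, Lb] at h3
  unfold Cov Lc Dc
  rcases h3 with ((h3 | h3) | h3) | ⟨p, hp, h3⟩
  · exact Or.inl h3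
  · exact Or.inr (Or.inl h3)
  · exact Or.inr (Or.inr (Or.inl h3))
  · rcases h3 with (((h3 | h3) | h3) | h3) | h3
    · exact Or.inr (Or.inr (Or.inr (Or.inl ⟨p, hp, h3⟩)))
    · exact Or.inr (Or.inr (Or.inr (Or.inr (Or.inl ⟨p, hp, h3⟩))))
    · exact Or.inr (Or.inr (Or.inr (Or.inr (Or.inr (Or.inl ⟨p.1, h3, p, hp, Or.inl rfl⟩)))))
    · exact Or.inr (Or.inr (Or.inr (Or.inr (Or.inr (Or.inl ⟨p.2, h3, p, hp, Or.inr rfl⟩)))))
    · exact Or.inr (Or.inr (Or.inr (Or.inr (Or.inr (Or.inr ⟨p, hp, h3⟩)))))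

def S4 : List (ℕ × ℕ) :=
  [(4, 26), (12, 18), (15, 24), (21, 29)]

theorem hS4 : chk 4 S4 = true := by decide +kernel

def S7 : List (ℕ × ℕ) :=
  [(8, 34), (11, 40), (14, 37), (17, 48), (20, 25), (22, 50), (43, 46)]

theorem hS7 : chk 7 S7 = true := by decide +kernel

def S8 : List (ℕ × ℕ) :=
  [(4, 26), (11, 52), (14, 50), (17, 57), (20, 54), (24, 32), (29, 47), (38, 44)]

theorem hS8 : chk 8 S8 = true := by decide +kernel

def S11 : List (ℕ × ℕ) :=
  [(6, 76), (9, 78), (12, 52), (19, 58), (24, 67), (27, 30), (33, 49), (36, 73), (42, 63), (46, 60), (55, 65)]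

theorem hS11 : chk 11 S11 = true := by decide +kernel

def S12 : List (ℕ × ℕ) :=
  [(4, 82), (12, 72), (19, 59), (22, 51), (32, 46), (35, 62), (38, 64), (43, 67), (48, 57), (54, 70), (74, 80), (77, 85)]

theorem hS12 : chk 12 S12 = true := by decide +kernel

def S15 : List (ℕ × ℕ) :=
  [(4, 64), (9, 101), (12, 59), (15, 76), (17, 71), (20, 85), (25, 98), (28, 34), (31, 79), (36, 87), (39, 82), (42, 95), (46, 103), (56, 106), (68, 90)]

theorem hS15 : chk 15 S15 = true := by decide +kernel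

def S16 : List (ℕ × ℕ) :=
  [(4, 86), (7, 102), (10, 100), (19, 62), (21, 93), (24, 40), (26, 110), (32, 77), (34, 98), (37, 67), (50, 104), (52, 80), (57, 69), (60, 107), (71, 113), (74, 88)]

theorem hS16 : chk 16 S16 = true := by decide +kernel

def S19 : List (ℕ × ℕ) :=
  [(4, 89), (9, 129), (12, 123), (15, 119), (21, 114), (24, 126), (26, 117), (31, 79), (33, 101), (37, 53), (40, 98), (44, 131), (46, 74), (50, 134), (56, 107), (61, 95), (64, 82), (67, 109), (71, 77)]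

theorem hS19 : chk 19 S19 = true := by decide +kernel

def S20 : List (ℕ × ℕ) :=
  [(4, 132), (7, 48), (10, 106), (16, 126), (21, 94), (24, 101), (27, 81), (30, 86), (34, 99), (39, 108), (46, 135), (51, 112), (59, 91), (67, 130), (71, 83), (75, 118), (79, 115), (88, 141), (103, 121), (124, 138)]

theorem hS20 : chk 20 S20 = true := by decide +kernel

def S23 : List (ℕ × ℕ) :=
  [(4, 157), (12, 80), (17, 71), (20, 129), (31, 139), (34, 111), (37, 97), (40, 66), (45, 103), (50, 137), (63, 105), (76, 123), (83, 135), (86, 159), (90, 100), (92, 116), (95, 151), (107, 162), (113, 141), (118, 126), (121, 143), (132, 146), (149, 155)]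

theorem hS23 : chk 23 S23 = true := by decide +kernel

def S24 : List (ℕ × ℕ) :=
  [(4, 166), (10, 134), (17, 160), (20, 119), (27, 169), (30, 156), (33, 146), (36, 122), (41, 148), (44, 129), (46, 109), (48, 153), (51, 89), (54, 112), (57, 158), (61, 73), (65, 79), (69, 150), (71, 137), (76, 84), (91, 97), (94, 116), (104, 132), (140, 164)]

theorem hS24 : chk 24 S24 = true := by decide +kernel

def S27 : List (ℕ × ℕ) :=
  [(4, 147), (9, 179), (12, 187), (18, 84), (21, 173), (23, 157), (26, 177), (31, 185), (34, 122), (37, 94), (39, 145), (42, 149), (50, 160), (55, 103), (59, 141), (64, 168), (69, 113), (72, 100), (75, 136), (78, 163), (81, 190), (87, 127), (91, 97), (116, 132), (119, 165), (125, 139), (130, 182)]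

theorem hS27 : chk 27 S27 = true := by decide +kernel

def S28 : List (ℕ × ℕ) :=
  [(4, 172), (9, 192), (12, 182), (15, 88), (21, 143), (24, 177), (30, 146), (32, 139), (39, 85), (42, 105), (45, 194), (49, 189), (55, 132), (58, 137), (66, 102), (71, 121), (76, 159), (82, 197), (91, 125), (93, 152), (96, 164), (99, 127), (110, 162), (113, 174), (119, 135), (130, 156), (148, 166), (180, 186)]

theorem hS28 : chk 28 S28 = true := by decide +kernel

theorem small (m : ℕ) (h1 : 4 ≤ m) (h2 : m ≤ 28) (h3 : m % 4 = 0 ∨ m % 4 = 3) :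
    ∃ L : List (ℕ × ℕ), L.length = m ∧ ∀ n, 1 ≤ n → n ≤ 7 * m + 3 → Cov (7 * m + 3) L n := by
  have hc : m = 4 ∨ m = 7 ∨ m = 8 ∨ m = 11 ∨ m = 12 ∨ m = 15 ∨ m = 16 ∨ m = 19 ∨ m = 20 ∨ m = 23 ∨ m = 24 ∨ m = 27 ∨ m = 28 := by omega
  rcases hc with rfl | rfl | rfl | rfl | rfl | rfl | rfl | rfl | rfl | rfl | rfl | rfl | rfl
  · exact ⟨S4, of_chk hS4⟩
  · exact ⟨S7, of_chk hS7⟩
  · exact ⟨S8, of_chk hS8⟩
  · exact ⟨S11, of_chk hS11⟩
  · exact ⟨S12, of_chk hS12⟩
  · exact ⟨S15, of_chk hS15⟩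
  · exact ⟨S16, of_chk hS16⟩
  · exact ⟨S19, of_chk hS19⟩
  · exact ⟨S20, of_chk hS20⟩
  · exact ⟨S23, of_chk hS23⟩
  · exact ⟨S24, of_chk hS24⟩
  · exact ⟨S27, of_chk hS27⟩
  · exact ⟨S28, of_chk hS28⟩

end Pool.Agent.K53
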