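import Pool.Agent.K53.Graph
import Pool.Agent.K53.Small
import Pool.Agent.K53.C7
import Pool.Agent.K53.C8
import Pool.Agent.K53.C11
import Pool.Agent.K53.C12
import Pool.Agent.K53.C15
import Pool.Agent.K53.C16
import Pool.Agent.Graceful.Parity

set_option autoImplicit false

/-! `B(5,3,m)` is graceful if and only if `m ≡ 0` or `3` modulo `4`. -/

namespace Pool.Agent.K53

open Pool.Agent.Graceful

theorem exists_list (m : ℕ) (h1 : 4 ≤ m) (h3 : m % 4 = 0 ∨ m % 4 = 3) :
    ∃ L : List (ℕ × ℕ), L.length = m ∧ ∀ n, 1 ≤ n → n ≤ 7 * m + 3 → Cov (7 * m + 3) L n := by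
  by_cases h2 : m ≤ 28
  · exact small m h1 h2 h3
  · have key : ∀ (h c : ℕ) (L : List (ℕ × ℕ)), m = 12 * h + c → L.length = 12 * h + c →
        (∀ n, 1 ≤ n → n ≤ 84 * h + (7 * c + 3) → Cov (84 * h + (7 * c + 3)) L n) →
        ∃ L : List (ℕ × ℕ), L.length = m ∧
          ∀ n, 1 ≤ n → n ≤ 7 * m + 3 → Cov (7 * m + 3) L n := by
      intro h c L hm hl hc
      have hq : 7 * m + 3 = 84 * h + (7 * c + 3) := by omega
      rw [hq]
      exact ⟨L, by rw [hl, hm], hc⟩
    have hc : m % 12 = 7 ∨ m % 12 = 8 ∨ m % 12 = 11 ∨ m % 12 = 0 ∨ m % 12 = 3 ∨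
        m % 12 = 4 := by omega
    rcases hc with hc | hc | hc | hc | hc | hc
    · exact key ((m - 7) / 12) 7 (C7.L _) (by omega) (C7.len _ (by omega))
        (fun n h1 h2 => C7.cov _ n (by omega) h1 h2)
    · exact key ((m - 8) / 12) 8 (C8.L _) (by omega) (C8.len _ (by omega))
        (fun n h1 h2 => C8.cov _ n (by omega) h1 h2)
    · exact key ((m - 11) / 12) 11 (C11.L _) (by omega) (C11.len _ (by omega))
        (fun n h1 h2 => C11.cov _ n (by omega) h1 h2)
    · exact key ((m - 12) / 12) 12 (C12.L _) (by omega) (C12.len _ (by omega))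
        (fun n h1 h2 => C12.cov _ n (by omega) h1 h2)
    · exact key ((m - 15) / 12) 15 (C15.L _) (by omega) (C15.len _ (by omega))
        (fun n h1 h2 => C15.cov _ n (by omega) h1 h2)
    · exact key ((m - 16) / 12) 16 (C16.L _) (by omega) (C16.len _ (by omega))
        (fun n h1 h2 => C16.cov _ n (by omega) h1 h2)

theorem graceful3 : IsGraceful (B 5 3 3) := by
  refine graceful_of_pairs 3 ![0, 2, 23] [(8, 24), (13, 20), (14, 19)] rfl rfl ?_
  intro n h1 h2
  have h3 : n < 25 := by omega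
  revert h1
  clear h2
  revert n
  decide

theorem graceful_iff (m : ℕ) (hm : 1 ≤ m) :
    IsGraceful (B 5 3 m) ↔ m % 4 = 0 ∨ m % 4 = 3 := by
  constructor
  · intro h
    have := parity_B 5 3 m (7 * m + 3) (by norm_num) (card_edges m) (by norm_num) (by omega) h
    omega
  · intro h
    by_cases h4 : 4 ≤ m
    · obtain ⟨L, h1, h2⟩ := exists_list m h4 h
      exact graceful_of_list m L h1 h2
    · have h5 : m = 3 := by omega
      subst h5
      exact graceful3

end Pool.Agent.K53
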